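import Pool.Agent.E8helper30.RG.Stm

/-!
# Project RG, S_T: the number of triangles without a rainbow triangle
-/

set_option autoImplicit false

open scoped Classical

namespace Pool.Agent.E8helper44.RG

open Pool.Agent.E8helper30.RG

variable {n : ℕ} {G : SimpleGraph (Fin n)} {c : Sym2 (Fin n) → ℕ} {W : Finset (Fin n)}

lemma tri3 (h : AtMostTwo G c) {x y z : Fin n} (h1 : G.Adj x y) (h2 : G.Adj y z)
    (h3 : G.Adj z x) (e1 : c s(x, y) = c s(y, z)) (e2 : c s(y, z) = c s(z, x)) : False := by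
  have h0 := h s(x, y) h1 s(y, z) h2 s(z, x) h3 e1 e2
  have n1 := h1.ne
  have n2 := h2.ne
  have n3 := h3.ne
  simp only [Sym2.eq_iff] at h0
  rcases h0 with (⟨a, b⟩ | ⟨a, b⟩) | (⟨a, b⟩ | ⟨a, b⟩) | (⟨a, b⟩ | ⟨a, b⟩)
  · exact n1 a
  · exact n3 a.symm
  · exact n2 a
  · exact n1 a.symm
  · exact n3 a.symm
  · exact n2 b

/-- the triangles whose apex is the third vertex -/
noncomputable def T1 (G : SimpleGraph (Fin n)) (c : Sym2 (Fin n) → ℕ) (W : Finset (Fin n)) :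
    Finset (Fin n × Fin n × Fin n) :=
  (tri G W).filter fun p => c s(p.2.1, p.2.2) = c s(p.2.2, p.1)

lemma mem_tri {x y z : Fin n} : (x, y, z) ∈ tri G W ↔
    (x ∈ W ∧ y ∈ W ∧ z ∈ W) ∧ G.Adj x y ∧ G.Adj y z ∧ G.Adj z x := by
  unfold tri
  simp only [Finset.mem_filter, Finset.mem_product]

lemma mem_T1 {x y z : Fin n} : (x, y, z) ∈ T1 G c W ↔
    ((x ∈ W ∧ y ∈ W ∧ z ∈ W) ∧ G.Adj x y ∧ G.Adj y z ∧ G.Adj z x) ∧
      c s(y, z) = c s(z, x) := by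
  unfold T1
  rw [Finset.mem_filter, mem_tri]

/-- rotation -/
def rot (p : Fin n × Fin n × Fin n) : Fin n × Fin n × Fin n := (p.2.1, p.2.2, p.1)

lemma rot3 (p : Fin n × Fin n × Fin n) : rot (rot (rot p)) = p := rfl

lemma rot_inj : Function.Injective (rot : Fin n × Fin n × Fin n → _) := fun p q h => by
  rw [← rot3 p, ← rot3 q, h]

lemma rot_mem {p : Fin n × Fin n × Fin n} (h : p ∈ tri G W) : rot p ∈ tri G W := by
  obtain ⟨x, y, z⟩ := p
  show (y, z, x) ∈ tri G W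
  rw [mem_tri] at h ⊢
  tauto

lemma card3 (h : AtMostTwo G c) (hN : NoRT G c) : (tri G W).card = 3 * (T1 G c W).card := by
  have hU : tri G W = T1 G c W ∪ ((T1 G c W).image rot ∪ (T1 G c W).image (rot ∘ rot)) := by
    ext ⟨x, y, z⟩
    rw [Finset.mem_union, Finset.mem_union, Finset.mem_image, Finset.mem_image]
    constructor
    · intro hp
      have hp' := mem_tri.1 hp
      obtain ⟨⟨hx, hy, hz⟩, h1, h2, h3⟩ := hp'
      rcases hN x y z h1 h2 h3 with e | e | e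
      · -- c xy = c yz : apex y, (x,y,z) = rot^2 of (y? ...)
        right; left
        exact ⟨(z, x, y), mem_T1.2 ⟨⟨⟨hz, hx, hy⟩, h3, h1, h2⟩, e⟩, rfl⟩
      · left
        exact mem_T1.2 ⟨⟨⟨hx, hy, hz⟩, h1, h2, h3⟩, e⟩
      · right; right
        exact ⟨(y, z, x), mem_T1.2 ⟨⟨⟨hy, hz, hx⟩, h2, h3, h1⟩, e⟩, rfl⟩
    · rintro (hp | ⟨p, hp, e⟩ | ⟨p, hp, e⟩)
      · exact (Finset.mem_filter.1 hp).1
      · rw [← e]; exact rot_mem (Finset.mem_filter.1 hp).1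
      · rw [← e]; exact rot_mem (rot_mem (Finset.mem_filter.1 hp).1)
  have d1 : Disjoint ((T1 G c W).image rot) ((T1 G c W).image (rot ∘ rot)) := by
    rw [Finset.disjoint_left]
    intro q h1 h2
    obtain ⟨⟨x, y, z⟩, hp, e⟩ := Finset.mem_image.1 h1
    obtain ⟨⟨x', y', z'⟩, hp', e'⟩ := Finset.mem_image.1 h2
    have e2 : (y, z, x) = (z', x', y') := e.trans e'.symm
    simp only [Prod.mk.injEq] at e2
    obtain ⟨rfl, rfl, rfl⟩ := e2
    obtain ⟨⟨_, a1, a2, a3⟩, a4⟩ := mem_T1.1 hp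
    obtain ⟨_, b4⟩ := mem_T1.1 hp'
    exact tri3 h a1 a2 a3 b4 a4
  have d2 : Disjoint (T1 G c W) ((T1 G c W).image rot ∪ (T1 G c W).image (rot ∘ rot)) := by
    rw [Finset.disjoint_left]
    intro q h1 h2
    obtain ⟨x, y, z⟩ := q
    obtain ⟨⟨_, a1, a2, a3⟩, a4⟩ := mem_T1.1 h1
    rcases Finset.mem_union.1 h2 with h2 | h2
    · obtain ⟨⟨x', y', z'⟩, hp', e'⟩ := Finset.mem_image.1 h2
      have e2 : (y', z', x') = (x, y, z) := e'
      simp only [Prod.mk.injEq] at e2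
      obtain ⟨rfl, rfl, rfl⟩ := e2
      obtain ⟨_, b4⟩ := mem_T1.1 hp'
      exact tri3 h a1 a2 a3 b4 a4
    · obtain ⟨⟨x', y', z'⟩, hp', e'⟩ := Finset.mem_image.1 h2
      have e2 : (z', x', y') = (x, y, z) := e'
      simp only [Prod.mk.injEq] at e2
      obtain ⟨rfl, rfl, rfl⟩ := e2
      obtain ⟨_, b4⟩ := mem_T1.1 hp'
      exact tri3 h a2 a3 a1 a4 b4
  rw [hU, Finset.card_union_of_disjoint d2, Finset.card_union_of_disjoint d1,
    Finset.card_image_of_injective _ rot_inj,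
    Finset.card_image_of_injective _ (rot_inj.comp rot_inj)]
  ring

lemma card2 : ∃ τ : ℕ, (T1 G c W).card = 2 * τ := by
  refine ⟨((T1 G c W).filter fun p => p.1 < p.2.1).card, ?_⟩
  rw [← Finset.card_filter_add_card_filter_not (s := T1 G c W) (fun p => p.1 < p.2.1), two_mul]
  congr 1
  refine Finset.card_nbij' (fun p => (p.2.1, p.1, p.2.2)) (fun p => (p.2.1, p.1, p.2.2))
    ?_ ?_ ?_ ?_
  · rintro ⟨x, y, z⟩ hp
    rw [Finset.mem_coe, Finset.mem_filter, mem_T1] at hp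
    rw [Finset.mem_coe, Finset.mem_filter]
    obtain ⟨⟨⟨⟨hx, hy, hz⟩, h1, h2, h3⟩, e⟩, hlt⟩ := hp
    refine ⟨mem_T1.2 ⟨⟨⟨hy, hx, hz⟩, h1.symm, h3.symm, h2.symm⟩, ?_⟩, ?_⟩
    · rw [Sym2.eq_swap, ← e, Sym2.eq_swap]
    · have := h1.ne
      exact lt_of_le_of_ne (not_lt.1 hlt) (fun h => this h.symm)
  · rintro ⟨x, y, z⟩ hp
    rw [Finset.mem_coe, Finset.mem_filter, mem_T1] at hp
    rw [Finset.mem_coe, Finset.mem_filter]
    obtain ⟨⟨⟨⟨hx, hy, hz⟩, h1, h2, h3⟩, e⟩, hlt⟩ := hp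
    refine ⟨mem_T1.2 ⟨⟨⟨hy, hx, hz⟩, h1.symm, h3.symm, h2.symm⟩, ?_⟩, ?_⟩
    · rw [Sym2.eq_swap, ← e, Sym2.eq_swap]
    · exact not_lt.2 (le_of_lt hlt)
  · rintro ⟨x, y, z⟩ _; rfl
  · rintro ⟨x, y, z⟩ _; rfl

lemma mem_darts {x y : Fin n} : (x, y) ∈ darts G W ↔ (x ∈ W ∧ y ∈ W) ∧ G.Adj x y := by
  unfold darts
  rw [Finset.mem_filter, Finset.mem_product]

lemma le_darts (h : AtMostTwo G c) : 2 * (T1 G c W).card ≤ (darts G W).card := by
  have i1 : Set.InjOn (fun p : Fin n × Fin n × Fin n => (p.1, p.2.2)) (T1 G c W) := by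
    rintro ⟨x, y, z⟩ hp ⟨x', y', z'⟩ hp' e
    simp only [Prod.mk.injEq] at e
    obtain ⟨rfl, rfl⟩ := e
    rw [Finset.mem_coe, mem_T1] at hp hp'
    obtain ⟨⟨_, a1, a2, a3⟩, a4⟩ := hp
    obtain ⟨⟨_, b1, b2, b3⟩, b4⟩ := hp'
    have n1 := a1.ne
    have n2 := b1.ne
    have h0 := h s(y, z) a2 s(z, x) a3 s(y', z) b2 a4 b4.symm
    simp only [Sym2.eq_iff] at h0
    have : y = y' := by
      rcases h0 with (⟨a, b⟩ | ⟨a, b⟩) | (⟨a, b⟩ | ⟨a, b⟩) | (⟨a, b⟩ | ⟨a, b⟩)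
      · exact absurd a a2.ne
      · exact absurd a n1.symm
      · exact absurd b a3.ne'
      · exact absurd b n2
      · exact a
      · exact absurd a a2.ne
    rw [this]
  have i2 : Set.InjOn (fun p : Fin n × Fin n × Fin n => (p.2.2, p.1)) (T1 G c W) := by
    intro p hp q hq e
    refine i1 hp hq ?_
    simp only [Prod.mk.injEq] at e ⊢
    exact ⟨e.2, e.1⟩
  have hd : Disjoint ((T1 G c W).image fun p => (p.1, p.2.2))
      ((T1 G c W).image fun p => (p.2.2, p.1)) := by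
    rw [Finset.disjoint_left]
    intro q h1 h2
    obtain ⟨⟨x, y, z⟩, hp, e⟩ := Finset.mem_image.1 h1
    obtain ⟨⟨x', y', z'⟩, hp', e'⟩ := Finset.mem_image.1 h2
    have e2 : (x, z) = (z', x') := e.trans e'.symm
    simp only [Prod.mk.injEq] at e2
    obtain ⟨rfl, rfl⟩ := e2
    rw [mem_T1] at hp hp'
    obtain ⟨⟨_, a1, a2, a3⟩, a4⟩ := hp
    obtain ⟨⟨_, b1, b2, b3⟩, b4⟩ := hp'
    have b4' : c s(y', x) = c s(z, x) := by rw [b4, Sym2.eq_swap]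
    have h0 := h s(y, z) a2 s(z, x) a3 s(y', x) b2 a4 b4'.symm
    simp only [Sym2.eq_iff] at h0
    rcases h0 with (⟨a, b⟩ | ⟨a, b⟩) | (⟨a, b⟩ | ⟨a, b⟩) | (⟨a, b⟩ | ⟨a, b⟩)
    · exact a2.ne a
    · exact a1.ne a.symm
    · exact b1.ne a
    · exact a3.ne a
    · exact a3.ne b
    · exact a1.ne a.symm
  have hs : ((T1 G c W).image fun p => (p.1, p.2.2)) ∪
      ((T1 G c W).image fun p => (p.2.2, p.1)) ⊆ darts G W := by
    intro q hq
    rcases Finset.mem_union.1 hq with h1 | h1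
    · obtain ⟨⟨x, y, z⟩, hp, e⟩ := Finset.mem_image.1 h1
      rw [← e]
      rw [mem_T1] at hp
      obtain ⟨⟨⟨hx, hy, hz⟩, a1, a2, a3⟩, a4⟩ := hp
      exact mem_darts.2 ⟨⟨hx, hz⟩, a3.symm⟩
    · obtain ⟨⟨x, y, z⟩, hp, e⟩ := Finset.mem_image.1 h1
      rw [← e]
      rw [mem_T1] at hp
      obtain ⟨⟨⟨hx, hy, hz⟩, a1, a2, a3⟩, a4⟩ := hp
      exact mem_darts.2 ⟨⟨hz, hx⟩, a3⟩
  have := Finset.card_le_card hs
  rw [Finset.card_union_of_disjoint hd, Finset.card_image_of_injOn i1,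
    Finset.card_image_of_injOn i2] at this
  omega

theorem t_T : S_T := by
  intro n G c W h hN
  obtain ⟨τ, hτ⟩ := card2 (G := G) (c := c) (W := W)
  refine ⟨τ, ?_, ?_⟩
  · rw [card3 h hN, hτ]
    ring
  · have := le_darts (W := W) h
    omega

end Pool.Agent.E8helper44.RG
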